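import Pool.Agent.K2h1.SqB

set_option autoImplicit false

/-!
# The Hilbert series of generic ideals in the square-free algebra

`SqFree K n = K[x_1, …, x_n] / (x_1 ^ 2, …, x_n ^ 2)`. For every field `K` (of any characteristic),
every odd `n = 2 k + 1 ≥ 7` and all degrees `d_1 = d_2 = 1 < k < d_3, …, d_r`, the truncation of
`(1 + t) ^ n ∏ (1 - t ^ d_i)` has the coefficient `0` at `t ^ k`, but for ALL forms `f_i` of the
degrees `d_i` the quotient of the square-free algebra by `(f_1, …, f_r)` does not vanish in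
degree `k`. So the formula fails for `r ≥ 2` forms of these degrees.

Idea: with `β_i = b_i / a_i` the weights `∏_{i ∈ S} (w_i / a_i) ∏_{i < j ∈ S} (β_i - β_j) ^ 2`,
`w_i = ∏_{j ≠ i} 1 / (β_i - β_j)`, of the `k`-subsets `S` (the coefficients of a Hankel determinant)
are annihilated by `∑ a_i x_i` and `∑ b_i x_i`.
-/

namespace Pool.Agent.Results.MP_3acc10_al.OddVariables

open Pool.Agent.K2h1.Sq Polynomial Finset

universe u

theorem dvd_prod_sub_one {ι : Type*} (s : Finset ι) (d : ι → ℕ) (k : ℕ) (h : ∀ i ∈ s, k < d i) :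
    (X : ℤ[X]) ^ (k + 1) ∣ ∏ i ∈ s, (1 - X ^ d i) - 1 := by
  classical
  induction s using Finset.induction_on with
  | empty => simp
  | insert a s ha ih =>
    rw [prod_insert ha]
    have h1 := ih fun i hi => h i (mem_insert_of_mem hi)
    have h2 : (X : ℤ[X]) ^ (k + 1) ∣ X ^ d a := pow_dvd_pow _ (h a (mem_insert_self _ _))
    have e : (1 - X ^ d a : ℤ[X]) * ∏ i ∈ s, (1 - X ^ d i) - 1
        = (∏ i ∈ s, (1 - X ^ d i) - 1) - X ^ d a * ∏ i ∈ s, (1 - X ^ d i) := by ring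
    rw [e]
    exact dvd_sub h1 (h2.mul_right _)

theorem choose_ineq (j : ℕ) :
    ((2 * j + 7).choose (j + 3) : ℤ) - 2 * (2 * j + 7).choose (j + 2) + (2 * j + 7).choose (j + 1)
      ≤ 0 := by
  have h1 := Nat.choose_succ_right_eq (2 * j + 7) (j + 2)
  have h2 := Nat.choose_succ_right_eq (2 * j + 7) (j + 1)
  rw [show 2 * j + 7 - (j + 2) = j + 5 by omega] at h1
  rw [show 2 * j + 7 - (j + 1) = j + 6 by omega] at h2
  have h1' : ((2 * j + 7).choose (j + 3) : ℤ) * (j + 3) = (2 * j + 7).choose (j + 2) * (j + 5) := by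
    exact_mod_cast h1
  have h2' : ((2 * j + 7).choose (j + 2) : ℤ) * (j + 2) = (2 * j + 7).choose (j + 1) * (j + 6) := by
    exact_mod_cast h2
  set A : ℤ := ((2 * j + 7).choose (j + 3) : ℤ)
  set B : ℤ := ((2 * j + 7).choose (j + 2) : ℤ) with hB
  set D : ℤ := ((2 * j + 7).choose (j + 1) : ℤ)
  have hB0 : 0 ≤ B := by rw [hB]; positivity
  have key : ((j : ℤ) + 3) * (j + 6) * (A - 2 * B + D) = -(2 * j * B) := by
    linear_combination (j + 6 : ℤ) * h1' - (j + 3 : ℤ) * h2'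
  by_contra hcon
  push Not at hcon
  have hpos : (0 : ℤ) < ((j : ℤ) + 3) * (j + 6) := by positivity
  have h3 := mul_pos hpos hcon
  rw [key] at h3
  have : (0 : ℤ) ≤ 2 * j * B := by positivity
  linarith

theorem trunc_eq_zero (k : ℕ) (hk : 3 ≤ k) {r : ℕ} (d : Fin (r + 2) → ℕ) (h0 : d 0 = 1)
    (h1 : d 1 = 1) (hd : ∀ i, i ≠ 0 → i ≠ 1 → k < d i) :
    truncCoeff ((1 + X) ^ (2 * k + 1) * ∏ i, (1 - X ^ d i)) k = 0 := by
  unfold truncCoeff
  rw [if_neg]
  intro h
  have h2 := h k le_rfl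
  have e1 : ∏ i, (1 - X ^ d i : ℤ[X]) = (1 - X) * (1 - X) * ∏ i ∈ (univ.erase 0).erase 1,
      (1 - X ^ d i : ℤ[X]) := by
    rw [← mul_prod_erase univ _ (mem_univ 0), ← mul_prod_erase (univ.erase 0) _
      (mem_erase.2 ⟨by simp, mem_univ 1⟩), h0, h1, pow_one, mul_assoc]
  obtain ⟨Q, hQ⟩ := dvd_prod_sub_one ((univ.erase 0).erase 1) d k fun i hi =>
    hd i (mem_erase.1 (mem_erase.1 hi).2).1 (mem_erase.1 hi).1
  have e2 : (1 + X) ^ (2 * k + 1) * ∏ i, (1 - X ^ d i : ℤ[X])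
      = (1 + X) ^ (2 * k + 1) - 2 * ((1 + X) ^ (2 * k + 1) * X) + (1 + X) ^ (2 * k + 1) * X ^ 2
        + X ^ (k + 1) * ((1 + X) ^ (2 * k + 1) * ((1 - X) * (1 - X)) * Q) := by
    rw [e1]
    linear_combination ((1 + X) ^ (2 * k + 1) * ((1 - X) * (1 - X)) : ℤ[X]) * hQ
  obtain ⟨j, rfl⟩ : ∃ j, k = j + 3 := ⟨k - 3, by omega⟩
  rw [e2, coeff_add, coeff_X_pow_mul', if_neg (by omega), add_zero, coeff_add, coeff_sub,
    show (2 : ℤ[X]) = C 2 by simp, coeff_C_mul, coeff_mul_X, coeff_mul_X_pow',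
    if_pos (by omega), coeff_one_add_X_pow, coeff_one_add_X_pow, coeff_one_add_X_pow] at h2
  have h3 := choose_ineq j
  rw [show 2 * (j + 3) + 1 = 2 * j + 7 by ring, show j + 3 - 2 = j + 1 by omega] at h2
  linarith

/-- For every field `K`, every odd number `n = 2 k + 1 ≥ 7` of variables and all degrees
`d_0 = d_1 = 1`, `d_i > k` otherwise, the coefficient of `t ^ k` of the truncated series is `0`, but
the quotient of the square-free algebra by arbitrary forms `f_i` of degree `d_i` is nonzero in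
degree `k`. In particular its Hilbert series is not the truncated series. -/
theorem result (K : Type u) [Field K] (k : ℕ) (hk : 3 ≤ k) (r : ℕ) (d : Fin (r + 2) → ℕ)
    (h0 : d 0 = 1) (h1 : d 1 = 1) (hd : ∀ i, i ≠ 0 → i ≠ 1 → k < d i) :
    truncCoeff ((1 + X) ^ (2 * k + 1) * ∏ i, (1 - X ^ d i)) k = 0 ∧
    ∀ f : Fin (r + 2) → SqFree K (2 * k + 1), (∀ i, f i ∈ piece K (2 * k + 1) (d i)) →
      0 < hilb (Ideal.span (Set.range f)) k ∧
      (fun j => (hilb (Ideal.span (Set.range f)) j : ℤ)) ≠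
        truncCoeff ((1 + X) ^ (2 * k + 1) * ∏ i, (1 - X ^ d i)) := by
  refine ⟨trunc_eq_zero k hk d h0 h1 hd, fun f hf => ?_⟩
  have h2 := hilb_pos K k d h0 h1 hd f hf
  refine ⟨h2, fun h => ?_⟩
  have h3 := congrFun h k
  rw [trunc_eq_zero k hk d h0 h1 hd] at h3
  exact h2.ne' (by exact_mod_cast h3)

end Pool.Agent.Results.MP_3acc10_al.OddVariables
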